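import Pool.Agent.Q104.LT.Tree

set_option autoImplicit false
set_option linter.unusedSectionVars false

/-!
# Free actions on `Λ`-trees and divisibility

A group acting freely on a `Λ`-tree in which every element is a cube is abelian.
-/

namespace Pool.Agent.Q104.LT

open Set

variable {Λ : Type*} [AddCommGroup Λ] [LinearOrder Λ] {T : Type*}

/-- A free action of `G` on a `Λ`-metric space: `G` acts by isometries, and every nontrivial element
fixes no point and inverts no segment. -/
structure LambdaMetric.IsFreeAction (M : LambdaMetric Λ T) (G : Type*) [Group G] [MulAction G T] :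
    Prop where
  isometric : ∀ (g : G) (x y : T), M.d (g • x) (g • y) = M.d x y
  no_fixed_point : ∀ g : G, g ≠ 1 → ∀ x : T, g • x ≠ x
  no_inversion : ∀ g : G, g ≠ 1 → ∀ (s : Set T) (x y : T), M.IsSegment s x y →
    ¬ ((fun p => g • p) '' s = s ∧ g • x = y ∧ g • y = x)

variable [IsOrderedAddMonoid Λ] {M : LambdaMetric Λ T} {G : Type*} [Group G] [MulAction G T]

namespace LambdaMetric

theorem IsFreeAction.smul_segment (hG : M.IsFreeAction G) (g : G) {s : Set T} {x y : T}
    (h : M.IsSegment s x y) : M.IsSegment ((fun p => g • p) '' s) (g • x) (g • y) := by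
  obtain ⟨γ, h0, h1, h2, h3⟩ := h
  refine ⟨fun a => g • γ a, ?_, ?_, ?_, ?_⟩
  · show g • γ 0 = _
    rw [h0]
  · show g • γ _ = _
    rw [hG.isometric, h1]
  · intro a ha b hb
    rw [hG.isometric] at ha hb ⊢
    exact h2 a ha b hb
  · rw [hG.isometric, ← h3, image_image]

/-- No swaps. -/
theorem IsFreeAction.no_swap (hM : M.IsTree) (hG : M.IsFreeAction G) {g : G} (hg : g ≠ 1)
    {x : T} : g • g • x ≠ x := by
  intro h
  obtain ⟨s, hs⟩ := hM.joined x (g • x)
  refine hG.no_inversion g hg s x (g • x) hs ⟨?_, rfl, h⟩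
  have := hG.smul_segment g hs
  rw [h] at this
  exact hM.segment_unique this.symm hs

/-- Two points between `x` and `y` at the same distance of `x` are equal. -/
theorem IsTree.line (hM : M.IsTree) {x y p q : T} (hp : M.d x p + M.d p y = M.d x y)
    (hq : M.d x q + M.d q y = M.d x y) (h : M.d x p ≤ M.d x q) :
    M.d p q = M.d x q - M.d x p := by
  have h1 := hM.fourPoint x p q y
  have h2 := M.triangle x p q
  rw [M.symm x q, M.symm x p] at h1
  rw [M.symm x p, M.symm x q] at *
  rcases le_max_iff.1 h1 with h1 | h1 <;> grind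

theorem IsTree.line_eq (hM : M.IsTree) {x y p q : T} (hp : M.d x p + M.d p y = M.d x y)
    (hq : M.d x q + M.d q y = M.d x y) (h : M.d x p = M.d x q) : p = q := by
  rw [← M.eq_zero_iff, hM.line hp hq h.le, h, sub_self]

/-- Local geodesics are geodesics. -/
theorem IsTree.chain (hM : M.IsTree) {a b c e : T} (h1 : M.d a c = M.d a b + M.d b c)
    (h2 : M.d b e = M.d b c + M.d c e) (h3 : 0 < M.d b c) :
    M.d a e = M.d a b + M.d b c + M.d c e := by
  have h4 := hM.fourPoint b a c e
  have h5 := M.triangle a c e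
  rw [M.symm b a] at h4
  rcases le_max_iff.1 h4 with h4 | h4 <;> grind

/-- The axis of an isometry. -/
def Ax (M : LambdaMetric Λ T) {G : Type*} [Group G] [MulAction G T] (g : G) (x : T) : Prop :=
  M.d x (g • g • x) = M.d x (g • x) + M.d x (g • x)

/-- The projection to the axis. -/
theorem IsFreeAction.proj (hM : M.IsTree) (hG : M.IsFreeAction G) {g : G} (hg : g ≠ 1) (u : T) :
    ∃ w : T, 0 < M.d w (g • w) ∧ M.Ax g w ∧ M.d u (g • w) = M.d u w + M.d w (g • w) ∧
      M.d u (g⁻¹ • w) = M.d u w + M.d w (g • w) ∧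
      M.d u (g • u) = M.d u w + M.d u w + M.d w (g • w) ∧
      M.d u (g • g • u) = M.d u w + M.d u w + M.d w (g • w) + M.d w (g • w) := by
  obtain ⟨w, h1, h2, h3⟩ := hM.median u (g • u) (g⁻¹ • u)
  have i := hG.isometric
  have e1 : M.d u (g⁻¹ • u) = M.d u (g • u) := by
    rw [← i g u, smul_inv_smul, M.symm]
  have e2 : M.d (g • u) (g⁻¹ • u) = M.d u (g • g • u) := by
    rw [← i g (g • u), smul_inv_smul, M.symm]
  have e3 : M.d w (g⁻¹ • u) = M.d u (g • w) := by
    rw [← i g w, smul_inv_smul, M.symm]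
  have e4 : M.d (g • w) (g • u) = M.d u w := by rw [i, M.symm]
  have e5 : M.d u (g⁻¹ • w) = M.d w (g • u) := by
    rw [← i g u, smul_inv_smul, M.symm]
  rw [e1, e3] at h2
  rw [e2, e3, M.symm (g • u) w] at h3
  have h4 := hM.fourPoint u w (g • w) (g • u)
  rw [e4, M.symm u w] at h4
  rw [M.symm u w] at h1 h2 e4
  have n1 := M.nonneg w u
  have n2 := M.nonneg w (g • w)
  -- `2 a < L`
  have hlt : M.d w u + M.d w u < M.d u (g • u) := by
    by_contra hcon
    push Not at hcon
    have k1 : M.d w (g • w) ≤ M.d w u + M.d w u - M.d u (g • u) := by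
      rcases le_max_iff.1 h4 with h4 | h4 <;> grind
    have k2 : M.d (g • w) (g • g • u) = M.d w (g • u) := i _ _ _
    have k3 := M.triangle w (g • w) (g • g • u)
    have k4 : M.d (g • u) (g • g • u) = M.d u (g • u) := i _ _ _
    have k5 := M.triangle (g • u) w (g • g • u)
    rw [M.symm (g • u) w] at k5
    have k6 : M.d (g • u) (g • g • w) = M.d u (g • w) := i _ _ _
    have k7 : M.d (g • g • w) (g • g • u) = M.d w u := by rw [i, i]
    have : g • g • w = w := by
      apply hM.line_eq (x := g • u) (y := g • g • u)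
      · grind
      · rw [M.symm (g • u) w]
        grind
      · rw [M.symm (g • u) w]
        grind
    exact hG.no_swap hM hg this
  have k1 : M.d w (g • w) = M.d u (g • u) - M.d w u - M.d w u := by
    have := M.triangle u w (g • w)
    rw [M.symm u w] at this
    rcases le_max_iff.1 h4 with h4 | h4 <;> grind
  have k2 : M.d w (g • g • w) = M.d w (g • w) + M.d w (g • w) := by
    have a1 := M.triangle w (g • w) (g • g • w)
    rw [i] at a1
    have a2 := M.triangle u w (g • g • u)
    have a3 := M.triangle w (g • g • w) (g • g • u)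
    have a4 : M.d (g • g • w) (g • g • u) = M.d w u := by rw [i, i]
    rw [M.symm u w] at a2
    grind
  refine ⟨w, ?_, k2, ?_, ?_, ?_, ?_⟩
  · grind
  · rw [M.symm u w]; grind
  · rw [M.symm u w, e5]; grind
  · rw [M.symm u w]; grind
  · rw [M.symm u w]; grind

theorem IsFreeAction.lt (hM : M.IsTree) (hG : M.IsFreeAction G) {g : G} (hg : g ≠ 1) (u : T) :
    M.d u (g • u) < M.d u (g • g • u) := by
  obtain ⟨w, h1, -, -, -, h2, h3⟩ := hG.proj hM hg u
  rw [h2, h3]
  grind

theorem IsFreeAction.pos (_hM : M.IsTree) (hG : M.IsFreeAction G) {g : G} (hg : g ≠ 1) (u : T) :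
    0 < M.d u (g • u) := by
  rcases (M.nonneg u (g • u)).lt_or_eq with h | h
  · exact h
  · exact absurd ((M.eq_zero_iff u (g • u)).1 h.symm).symm (hG.no_fixed_point g hg u)

/-- The displacement of powers. -/
theorem IsFreeAction.pow_disp (hM : M.IsTree) (hG : M.IsFreeAction G) {g : G} (hg : g ≠ 1) (u : T)
    (k : ℕ) : M.d u (g ^ (k + 2) • u) = M.d u (g ^ (k + 1) • u) +
      (M.d u (g • g • u) - M.d u (g • u)) ∧ M.d u (g • u) < M.d u (g ^ (k + 2) • u) := by
  have hlt := hG.lt hM hg u
  have i := hG.isometric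
  induction k with
  | zero =>
    rw [zero_add, zero_add, pow_one, pow_two, mul_smul]
    exact ⟨by abel, hlt⟩
  | succ k ih =>
    obtain ⟨ih1, ih2⟩ := ih
    have a1 : M.d (g • u) (g ^ (k + 3) • u) = M.d u (g ^ (k + 2) • u) := by
      rw [pow_succ' g (k + 2), mul_smul, i]
    have a2 : M.d (g ^ (k + 2) • u) (g ^ (k + 3) • u) = M.d u (g • u) := by
      rw [pow_succ g (k + 2), mul_smul, i]
    have a3 : M.d (g • u) (g ^ (k + 2) • u) = M.d u (g ^ (k + 1) • u) := by
      rw [pow_succ' g (k + 1), mul_smul, i]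
    have b1 := hM.fourPoint (g • u) u (g ^ (k + 2) • u) (g ^ (k + 3) • u)
    have b2 := hM.fourPoint (g • u) u (g ^ (k + 3) • u) (g ^ (k + 2) • u)
    rw [M.symm (g • u) u] at b1 b2
    rw [M.symm (g ^ (k + 3) • u) (g ^ (k + 2) • u)] at b2
    rw [a1, a2, a3] at b1 b2
    have : k + 1 + 2 = k + 3 := by ring
    rw [this, show k + 1 + 1 = k + 2 by ring]
    rcases le_max_iff.1 b1 with b1 | b1 <;> rcases le_max_iff.1 b2 with b2 | b2 <;>
      constructor <;> grind

/-- If `x` is on the axis of the cube of `g` then it is on the axis of `g`, and the displacement of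
the cube is three times the displacement. -/
theorem IsFreeAction.ax_cube (hM : M.IsTree) (hG : M.IsFreeAction G) {g : G} (hg : g ≠ 1) {x : T}
    (h : M.Ax (g ^ 3) x) : M.Ax g x ∧
      M.d x (g ^ 3 • x) = M.d x (g • x) + M.d x (g • x) + M.d x (g • x) := by
  have h1 := (hG.pow_disp hM hg x 0).1
  have h2 := (hG.pow_disp hM hg x 1).1
  have h3 := (hG.pow_disp hM hg x 2).1
  have h4 := (hG.pow_disp hM hg x 3).1
  have h5 := (hG.pow_disp hM hg x 4).1
  simp only [Nat.reduceAdd, pow_one] at h1 h2 h3 h4 h5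
  unfold Ax at h ⊢
  rw [← mul_smul, ← pow_add] at h
  simp only [Nat.reduceAdd] at h
  have e : g ^ 2 • x = g • g • x := by rw [pow_two, mul_smul]
  rw [e] at h1 h2
  constructor <;> grind

/-- Coherent pairs. -/
def Coh (M : LambdaMetric Λ T) {G : Type*} [Group G] [MulAction G T] (p q : G) (x : T) : Prop :=
  M.Ax p x ∧ M.Ax q x ∧ M.d x (p • q • x) = M.d x (p • x) + M.d x (q • x) ∧
    M.d x (q • p • x) = M.d x (p • x) + M.d x (q • x)

theorem Coh.symm {p q : G} {x : T} (h : M.Coh p q x) : M.Coh q p x :=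
  ⟨h.2.1, h.1, by rw [h.2.2.2, add_comm], by rw [h.2.2.1, add_comm]⟩

/-- The product of a coherent pair has `x` on its axis. -/
theorem ax_mul (hM : M.IsTree) (i : ∀ (g : G) (x y : T), M.d (g • x) (g • y) = M.d x y)
    {p q : G} {x : T} (hp : 0 < M.d x (p • x)) (hq : 0 < M.d x (q • x))
    (h1 : M.d x (p • q • x) = M.d x (p • x) + M.d x (q • x))
    (h2 : M.d x (q • p • x) = M.d x (p • x) + M.d x (q • x)) : M.Ax (p * q) x := by
  unfold Ax
  simp only [mul_smul]
  have e1 : M.d (p • x) (p • q • x) = M.d x (q • x) := i _ _ _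
  have e2 : M.d (p • q • x) (p • q • p • x) = M.d x (p • x) := by rw [i, i]
  have e3 : M.d (p • q • p • x) (p • q • p • q • x) = M.d x (q • x) := by rw [i, i, i]
  have e4 : M.d (p • x) (p • q • p • x) = M.d x (p • x) + M.d x (q • x) := by rw [i, h2]
  have e5 : M.d (p • q • x) (p • q • p • q • x) = M.d x (p • x) + M.d x (q • x) := by
    rw [i, i, h1]
  have c1 := hM.chain (a := x) (b := p • x) (c := p • q • x) (e := p • q • p • x)
    (by rw [h1, e1]) (by rw [e4, e1, e2, add_comm]) (by rw [e1]; exact hq)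
  have c2 := hM.chain (a := x) (b := p • q • x) (c := p • q • p • x) (e := p • q • p • q • x)
    (by rw [c1, e1, h1]) (by rw [e5, e2, e3]) (by rw [e2]; exact hp)
  rw [c2, h1, e2, e3]
  abel

/-- The main step: coherent pairs commute, if the elements have cube roots. -/
theorem IsFreeAction.commute_of_coh (hM : M.IsTree) (hG : M.IsFreeAction G)
    (hdiv : ∀ g : G, ∃ r : G, r ^ 3 = g) {p q : G} {x : T} (h : M.Coh p q x) (hp : p ≠ 1)
    (hq : q ≠ 1) (hle : M.d x (q • x) ≤ M.d x (p • x)) : p * q = q * p := by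
  obtain ⟨hpx, hqx, h1, h2⟩ := h
  have i := hG.isometric
  have pp := hG.pos hM hp x
  have pq := hG.pos hM hq x
  obtain ⟨α, hα⟩ := hdiv p
  obtain ⟨c, hc⟩ := hdiv (p * q)
  have hα1 : α ≠ 1 := by rintro rfl; exact hp (by rw [← hα, one_pow])
  have hpq1 : p * q ≠ 1 := by
    intro hcon
    have : p • q • x = x := by rw [← mul_smul, hcon, one_smul]
    rw [this, M.self] at h1
    grind
  have hc1 : c ≠ 1 := by rintro rfl; exact hpq1 (by rw [← hc, one_pow])
  have ax1 : M.Ax (c ^ 3) x := by rw [hc]; exact ax_mul hM i pp pq h1 h2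
  have ax2 : M.Ax (α ^ 3) x := by rw [hα]; exact hpx
  obtain ⟨axc, lc⟩ := hG.ax_cube hM hc1 ax1
  obtain ⟨axα, lα⟩ := hG.ax_cube hM hα1 ax2
  unfold Ax at axc axα
  -- positions on the segment from `x` to `y = p q x`
  have ey : c • c • c • x = p • q • x := by
    rw [← mul_smul, ← mul_smul, ← mul_smul, ← hc]; congr 1; simp [pow_succ, mul_assoc]
  have ep : α • α • α • x = p • x := by
    rw [← mul_smul, ← mul_smul, ← hα]; congr 1; simp [pow_succ, mul_assoc]
  have lc' : M.d x (p • q • x) = M.d x (c • x) + M.d x (c • x) + M.d x (c • x) := by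
    rw [← lc, hc, mul_smul]
  have lα' : M.d x (p • x) = M.d x (α • x) + M.d x (α • x) + M.d x (α • x) := by
    rw [← lα, hα]
  have dpy : M.d (p • x) (p • q • x) = M.d x (q • x) := i _ _ _
  set m := M.d x (c • x) with hm
  set n := M.d x (α • x) with hn
  have nn : 0 ≤ n := M.nonneg _ _
  have nm : 0 ≤ m := M.nonneg _ _
  -- `α x`
  have a1 : M.d (α • x) (p • x) = n + n := by
    rw [← ep, i, axα]
  have a2 : M.d (α • x) (p • q • x) = M.d x (p • q • x) - n := by
    have := M.triangle (α • x) (p • x) (p • q • x)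
    have := M.triangle x (α • x) (p • q • x)
    grind
  -- `α² x`
  have a3 : M.d (α • α • x) (p • x) = n := by
    rw [← ep, i, i]
  have a4 : M.d (α • α • x) (p • q • x) = M.d x (p • q • x) - n - n := by
    have := M.triangle (α • α • x) (p • x) (p • q • x)
    have := M.triangle x (α • α • x) (p • q • x)
    grind
  -- `c x`, `c² x`
  have b1 : M.d (c • x) (p • q • x) = m + m := by
    rw [← ey, i, axc]
  have b2 : M.d (c • c • x) (p • q • x) = m := by
    rw [← ey, i, i]
  -- `c α x`
  have k1 : M.d (α • x) (c • c • x) = m + m - n := by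
    have := hM.line (x := x) (y := p • q • x) (p := α • x) (q := c • c • x)
      (by grind) (by grind) (by grind)
    rw [this, axc]
  have k2 : M.d (c • α • x) (p • q • x) = m + m - n := by
    rw [← ey, i, k1]
  have k3 : M.d x (c • α • x) = m + n := by
    have e1 := M.triangle x (c • x) (c • α • x)
    rw [i] at e1
    have e2 := M.triangle x (c • α • x) (p • q • x)
    grind
  -- `α c x`
  have k4 : M.d (c • x) (α • α • x) = n + n - m := by
    have := hM.line (x := x) (y := p • q • x) (p := c • x) (q := α • α • x)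
      (by grind) (by grind) (by grind)
    rw [this, axα]
  have k5 : M.d (α • c • x) (p • x) = n + n - m := by
    rw [← ep, i, k4]
  have k6 : M.d x (α • c • x) = m + n ∧ M.d (α • c • x) (p • q • x) = m + m - n := by
    have e1 := M.triangle x (α • x) (α • c • x)
    rw [i] at e1
    have e2 := M.triangle (α • c • x) (p • x) (p • q • x)
    have e3 := M.triangle x (α • c • x) (p • q • x)
    constructor <;> grind
  have heq : c • α • x = α • c • x :=
    hM.line_eq (x := x) (y := p • q • x) (by grind) (by grind) (by grind)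
  have hcomm : c * α = α * c := by
    by_contra hcon
    have hne : (α * c)⁻¹ * (c * α) ≠ 1 := by
      intro h
      exact hcon (inv_mul_eq_one.1 h).symm
    refine hG.no_fixed_point _ hne x ?_
    rw [mul_smul, mul_smul c α, heq, ← mul_smul α c, inv_smul_smul]
  have hcomm' : Commute c α := hcomm
  have h3 : Commute (c ^ 3) (α ^ 3) := hcomm'.pow_pow 3 3
  rw [hc, hα] at h3
  have h4 : p * q * p = p * (p * q) := h3
  rw [mul_assoc] at h4
  exact (mul_left_cancel h4).symm

/-- Coherent pairs commute. -/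
theorem IsFreeAction.commute_of_coh' (hM : M.IsTree) (hG : M.IsFreeAction G)
    (hdiv : ∀ g : G, ∃ r : G, r ^ 3 = g) {p q : G} {x : T} (h : M.Coh p q x) (hp : p ≠ 1)
    (hq : q ≠ 1) : p * q = q * p := by
  rcases le_total (M.d x (q • x)) (M.d x (p • x)) with hle | hle
  · exact hG.commute_of_coh hM hdiv h hp hq hle
  · exact (hG.commute_of_coh hM hdiv h.symm hq hp hle).symm

/-- Off the axis, the displacement goes towards the axis. -/
theorem off_axis (hM : M.IsTree) (i : ∀ (g : G) (x y : T), M.d (g • x) (g • y) = M.d x y)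
    {b : G} {u w : T} (hu : M.Ax b u) (hw : ¬ M.Ax b w) :
    M.d u (b • w) < M.d u w + M.d w (b • w) := by
  unfold Ax at hu hw
  have t1 := M.triangle u w (b • w)
  have t2 := M.triangle w (b • w) (b • b • w)
  rw [i] at t2
  have t3 : M.d w (b • b • w) < M.d w (b • w) + M.d w (b • w) := lt_of_le_of_ne t2 hw
  by_contra hcon
  have t4 : M.d u (b • w) = M.d u w + M.d w (b • w) := le_antisymm t1 (not_lt.1 hcon)
  have binv : ∀ y : T, M.d (b⁻¹ • w) y = M.d w (b • y) := by
    intro y
    rw [← i b, smul_inv_smul]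
  have f1 := hM.fourPoint (b⁻¹ • w) (b • w) u w
  have f2 := hM.fourPoint w u (b • w) (b • u)
  have e1 : M.d (b⁻¹ • w) u = M.d w (b • u) := binv _
  have e1' : M.d u (b⁻¹ • w) = M.d w (b • u) := by rw [M.symm, e1]
  have e2 : M.d (b • w) (b⁻¹ • w) = M.d w (b • b • w) := by rw [M.symm, binv]
  have e3 : M.d (b⁻¹ • w) w = M.d w (b • w) := binv _
  have e4 : M.d w (b⁻¹ • w) = M.d w (b • w) := by rw [M.symm, e3]
  have e5 : M.d (b • w) w = M.d w (b • w) := M.symm _ _
  have e6 : M.d (b • w) u = M.d u (b • w) := M.symm _ _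
  have e7 : M.d (b • w) (b • u) = M.d u w := by rw [i, M.symm]
  have e8 : M.d w u = M.d u w := M.symm _ _
  have t5 := M.triangle u w (b • b • u)
  have t6 := M.triangle w (b • b • w) (b • b • u)
  rw [i, i, e8] at t6
  have n1 := M.nonneg u w
  have n2 := M.nonneg w (b • b • w)
  have n3 := M.nonneg w (b • w)
  rcases le_max_iff.1 f1 with f1 | f1 <;> rcases le_max_iff.1 f2 with f2 | f2 <;> grind

/-- A group which acts freely on a `Λ`-tree and in which every element is a cube is abelian. -/
theorem IsFreeAction.comm (hM : M.IsTree) (hG : M.IsFreeAction G)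
    (hdiv : ∀ g : G, ∃ r : G, r ^ 3 = g) (a b : G) : a * b = b * a := by
  by_contra hab
  have ha : a ≠ 1 := by rintro rfl; simp at hab
  have hb : b ≠ 1 := by rintro rfl; simp at hab
  have i := hG.isometric
  obtain ⟨x0⟩ := hM.nonempty
  obtain ⟨u, hu1, hu2, -, -, -, -⟩ := hG.proj hM hb x0
  obtain ⟨w, hw1, hw2, hw3, hw4, -, -⟩ := hG.proj hM ha u
  have hwb := hG.pos hM hb w
  -- auxiliary distances
  have ainv : ∀ g : G, ∀ y : T, M.d (g⁻¹ • w) y = M.d w (g • y) := by
    intro g y
    rw [← i g, smul_inv_smul]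
  have binv : ∀ g : G, ∀ y : T, M.d y (g⁻¹ • w) = M.d w (g • y) := by
    intro g y
    rw [M.symm, ainv]
  by_cases hbw : M.Ax b w
  · -- the axes meet
    unfold Ax at hw2 hbw
    have s1 := M.triangle w (a • w) (a • b • w)
    have s2 := M.triangle w (b • w) (b • a • w)
    rw [i] at s1 s2
    by_cases hcoh : M.d w (a • b • w) = M.d w (a • w) + M.d w (b • w) ∧
        M.d w (b • a • w) = M.d w (a • w) + M.d w (b • w)
    · exact hab (hG.commute_of_coh' hM hdiv ⟨hw2, hbw, hcoh.1, hcoh.2⟩ ha hb)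
    · -- `a` and `b⁻¹` are coherent
      have f1 := hM.fourPoint w (b • w) (b⁻¹ • w) (a⁻¹ • w)
      have f2 := hM.fourPoint w (a • w) (a⁻¹ • w) (b • w)
      have f3 := hM.fourPoint w (b • w) (b⁻¹ • w) (a • w)
      have f4 := hM.fourPoint w (a • w) (a⁻¹ • w) (b⁻¹ • w)
      have g1 : M.d (b⁻¹ • w) (a • w) = M.d w (b • a • w) := ainv _ _
      have g2 : M.d (b • w) (b⁻¹ • w) = M.d w (b • b • w) := binv _ _
      have g3 : M.d (a • w) (a⁻¹ • w) = M.d w (a • a • w) := binv _ _
      have g4 : M.d w (a⁻¹ • w) = M.d w (a • w) := binv _ _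
      have g5 : M.d w (b⁻¹ • w) = M.d w (b • w) := binv _ _
      have g6 : M.d (b • w) (a⁻¹ • w) = M.d w (a • b • w) := binv _ _
      have g7 : M.d (b • w) (a • w) = M.d w (b⁻¹ • a • w) := by
        rw [← i b w, smul_inv_smul]
      have g8 : M.d (b⁻¹ • w) (a⁻¹ • w) = M.d w (a • b⁻¹ • w) := binv _ _
      have g9 : M.d (a⁻¹ • w) (b⁻¹ • w) = M.d w (a • b⁻¹ • w) := ainv _ _
      have g10 : M.d (a • w) (b • w) = M.d w (b⁻¹ • a • w) := by
        rw [M.symm, g7]
      have g11 : M.d (a⁻¹ • w) (b • w) = M.d w (a • b • w) := ainv _ _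
      have g12 : M.d (a • w) (b⁻¹ • w) = M.d w (b • a • w) := by rw [M.symm, g1]
      have s3 := M.triangle w (a • w) (a • b⁻¹ • w)
      have s4 := M.triangle w (b⁻¹ • w) (b⁻¹ • a • w)
      rw [i] at s3 s4
      rw [g5] at s3 s4
      rw [g2, g4, g5, g6, g8] at f1
      rw [g3, g10, g11, g4] at f2
      rw [g2, g1, g5, g7] at f3
      rw [g3, g12, g4, g5, g9] at f4
      have c1 : M.d w (a • b⁻¹ • w) = M.d w (a • w) + M.d w (b • w) := by
        by_contra hcon
        have : M.d w (a • b⁻¹ • w) < M.d w (a • w) + M.d w (b • w) := lt_of_le_of_ne s3 hcon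
        apply hcoh
        constructor <;>
        rcases le_max_iff.1 f1 with f1 | f1 <;> rcases le_max_iff.1 f4 with f4 | f4 <;> grind
      have c2 : M.d w (b⁻¹ • a • w) = M.d w (a • w) + M.d w (b • w) := by
        by_contra hcon
        have : M.d w (b⁻¹ • a • w) < M.d w (a • w) + M.d w (b • w) :=
          lt_of_le_of_ne (by rw [add_comm]; exact s4) hcon
        apply hcoh
        constructor <;>
        rcases le_max_iff.1 f2 with f2 | f2 <;> rcases le_max_iff.1 f3 with f3 | f3 <;> grind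
      have hcoh' : M.Coh a b⁻¹ w := by
        refine ⟨hw2, ?_, ?_, ?_⟩
        · unfold Ax
          rw [g5, ← hbw, ← i b w (b⁻¹ • b⁻¹ • w), smul_inv_smul, ← i b (b • w) (b⁻¹ • w),
            smul_inv_smul, M.symm]
        · rw [c1, g5]
        · rw [c2, g5]
      have := hG.commute_of_coh' hM hdiv hcoh' ha (inv_ne_one.2 hb)
      exact hab (Commute.inv_right_iff.1 this)
  · -- the point `w` is off the axis of `b`
    have hu2' : M.Ax b⁻¹ u := by
      unfold Ax at hu2 ⊢
      have e1 : M.d u (b⁻¹ • u) = M.d u (b • u) := by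
        rw [← i b u (b⁻¹ • u), smul_inv_smul, M.symm]
      rw [e1, ← hu2, ← i b u (b⁻¹ • b⁻¹ • u), smul_inv_smul, ← i b (b • u) (b⁻¹ • u),
            smul_inv_smul, M.symm]
    have hbw' : ¬ M.Ax b⁻¹ w := by
      intro h
      apply hbw
      unfold Ax at h ⊢
      have e1 : M.d w (b⁻¹ • w) = M.d w (b • w) := by
        rw [← i b w (b⁻¹ • w), smul_inv_smul, M.symm]
      rw [e1] at h
      rw [← h, ← i b w (b⁻¹ • b⁻¹ • w), smul_inv_smul, ← i b (b • w) (b⁻¹ • w),
            smul_inv_smul, M.symm]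
    have o1 := off_axis hM i hu2 hbw
    have o2 := off_axis hM i hu2' hbw'
    have g5 : M.d w (b⁻¹ • w) = M.d w (b • w) := binv _ _
    have g4 : M.d w (a⁻¹ • w) = M.d w (a • w) := binv _ _
    rw [g5] at o2
    have f1 := hM.fourPoint w (a⁻¹ • w) u (b • w)
    have f2 := hM.fourPoint w (a • w) u (b⁻¹ • w)
    have g6 : M.d (a⁻¹ • w) (b • w) = M.d w (a • b • w) := ainv _ _
    have g7 : M.d (a • w) (b⁻¹ • w) = M.d w (b • a • w) := by rw [M.symm, ainv]
    have g8 : M.d (a⁻¹ • w) w = M.d w (a • w) := ainv _ _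
    have g9 : M.d (a • w) w = M.d w (a • w) := M.symm _ _
    have g10 : M.d (a⁻¹ • w) u = M.d u (a⁻¹ • w) := M.symm _ _
    have g11 : M.d (a • w) u = M.d u (a • w) := M.symm _ _
    have g12 : M.d w u = M.d u w := M.symm _ _
    rw [g6, g10, g12, g4] at f1
    rw [g7, g11, g12, g5] at f2
    clear ainv binv
    have s1 := M.triangle w (a • w) (a • b • w)
    have s2 := M.triangle w (b • w) (b • a • w)
    rw [i] at s1 s2
    have c1 : M.d w (a • b • w) = M.d w (a • w) + M.d w (b • w) := by
      rcases le_max_iff.1 f1 with f1 | f1 <;> grind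
    have c2 : M.d w (b • a • w) = M.d w (a • w) + M.d w (b • w) := by
      rcases le_max_iff.1 f2 with f2 | f2 <;> grind
    have hax : M.Ax (a * b) w := ax_mul hM i hw1 hwb c1 c2
    have hw2' := hw2
    unfold Ax at hw2'
    have k1 : M.d (a • w) (a • a • w) = M.d w (a • w) := i _ _ _
    have k2 : M.d (a • a • w) (a • a • b • w) = M.d w (b • w) := by rw [i, i]
    have k3 : M.d (a • w) (a • a • b • w) = M.d w (a • b • w) := i _ _ _
    have k4 : M.d (a • w) (a • b • w) = M.d w (b • w) := i _ _ _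
    have k5 : M.d (a • b • w) (a • b • a • w) = M.d w (a • w) := by rw [i, i]
    have k6 : M.d (a • w) (a • b • a • w) = M.d w (b • a • w) := i _ _ _
    have d1 := hM.chain (a := w) (b := a • w) (c := a • a • w) (e := a • a • b • w)
      (by rw [hw2', k1]) (by rw [k1, k2, k3, c1]) (by rw [k1]; exact hw1)
    have d2 := hM.chain (a := w) (b := a • w) (c := a • b • w) (e := a • b • a • w)
      (by rw [c1, k4]) (by rw [k4, k5, k6, c2, add_comm]) (by rw [k4]; exact hwb)
    have hab1 : a * b ≠ 1 := by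
      intro h
      have : a • b • w = w := by rw [← mul_smul, h, one_smul]
      rw [this, M.self] at c1
      grind
    have hcoh : M.Coh a (a * b) w := by
      refine ⟨hw2, hax, ?_, ?_⟩
      · rw [mul_smul, d1, c1, k1, k2]; abel
      · rw [mul_smul, mul_smul, d2, c1, k4, k5]; abel
    have h4 := hG.commute_of_coh' hM hdiv hcoh ha hab1
    rw [mul_assoc] at h4
    exact hab (mul_left_cancel h4)

end LambdaMetric

end Pool.Agent.Q104.LT
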