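import Mathlib

set_option autoImplicit false

/-!
# `Λ`-trees over ordered abelian groups

Basic theory of `Λ`-trees: the axioms imply the existence of medians and the four point
inequality.
-/

namespace Pool.Agent.Q104.LT

open Set

/-- A `Λ`-metric on a set `T`: the usual metric axioms with values in the ordered abelian
group `Λ`. -/
structure LambdaMetric (Λ : Type*) [AddCommGroup Λ] [LinearOrder Λ] (T : Type*) where
  /-- the distance -/
  d : T → T → Λ
  nonneg : ∀ x y, 0 ≤ d x y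
  eq_zero_iff : ∀ x y, d x y = 0 ↔ x = y
  symm : ∀ x y, d x y = d y x
  triangle : ∀ x y z, d x z ≤ d x y + d y z

variable {Λ : Type*} [AddCommGroup Λ] [LinearOrder Λ] {T : Type*}

/-- The set `s` is a segment with end points `x` and `y`: the image of an isometric embedding of
the interval `[0, d x y]` of `Λ` which sends `0` to `x` and `d x y` to `y`. -/
def LambdaMetric.IsSegment (M : LambdaMetric Λ T) (s : Set T) (x y : T) : Prop :=
  ∃ γ : Λ → T, γ 0 = x ∧ γ (M.d x y) = y ∧
    (∀ a ∈ Icc 0 (M.d x y), ∀ b ∈ Icc 0 (M.d x y), M.d (γ a) (γ b) = |a - b|) ∧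
    γ '' Icc 0 (M.d x y) = s

/-- A `Λ`-tree: a nonempty `Λ`-metric space in which any two points are joined by a segment, the
intersection of two segments with a common end point is a segment, and if two segments meet only
in a common end point, their union is a segment. -/
structure LambdaMetric.IsTree (M : LambdaMetric Λ T) : Prop where
  nonempty : Nonempty T
  joined : ∀ x y, ∃ s, M.IsSegment s x y
  inter : ∀ x y z s t, M.IsSegment s x y → M.IsSegment t x z → ∃ u v, M.IsSegment (s ∩ t) u v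
  union : ∀ x y z s t, M.IsSegment s x y → M.IsSegment t x z → s ∩ t = {x} →
    ∃ u v, M.IsSegment (s ∪ t) u v

variable [IsOrderedAddMonoid Λ] {M : LambdaMetric Λ T}

namespace LambdaMetric

theorem self (M : LambdaMetric Λ T) (x : T) : M.d x x = 0 := (M.eq_zero_iff x x).2 rfl

theorem IsSegment.symm {s : Set T} {x y : T} (h : M.IsSegment s x y) : M.IsSegment s y x := by
  obtain ⟨γ, h0, h1, h2, h3⟩ := h
  refine ⟨fun a => γ (M.d x y - a), ?_, ?_, ?_, ?_⟩
  · simpa using h1
  · rw [M.symm y x]; simpa using h0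
  · intro a ha b hb
    rw [M.symm y x] at ha hb
    rw [h2 _ ⟨by grind, by grind⟩ _ ⟨by grind, by grind⟩, abs_sub_comm]
    congr 1
    abel
  · rw [M.symm y x, ← h3]
    ext p
    constructor
    · rintro ⟨a, ha, rfl⟩
      exact ⟨M.d x y - a, ⟨by grind, by grind⟩, rfl⟩
    · rintro ⟨a, ha, rfl⟩
      refine ⟨M.d x y - a, ⟨by grind, by grind⟩, ?_⟩
      show γ _ = γ _
      congr 1
      abel

theorem IsSegment.dist {s : Set T} {x y : T} (h : M.IsSegment s x y) {p : T} (hp : p ∈ s) :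
    M.d x p + M.d p y = M.d x y := by
  obtain ⟨γ, h0, h1, h2, h3⟩ := h
  rw [← h3] at hp
  obtain ⟨a, ha, rfl⟩ := hp
  have e1 := h2 0 ⟨le_rfl, M.nonneg x y⟩ a ha
  have e2 := h2 a ha (M.d x y) ⟨M.nonneg x y, le_rfl⟩
  rw [h0] at e1
  rw [h1] at e2
  rw [e1, e2, zero_sub, abs_neg, abs_of_nonneg ha.1, abs_of_nonpos (by grind)]
  abel

theorem IsSegment.exists_mem {s : Set T} {x y : T} (h : M.IsSegment s x y) {a : Λ}
    (h0a : 0 ≤ a) (ha : a ≤ M.d x y) : ∃ p ∈ s, M.d x p = a := by
  obtain ⟨γ, h0, h1, h2, h3⟩ := h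
  refine ⟨γ a, h3 ▸ ⟨a, ⟨h0a, ha⟩, rfl⟩, ?_⟩
  have e1 := h2 0 ⟨le_rfl, M.nonneg x y⟩ a ⟨h0a, ha⟩
  rw [h0] at e1
  rw [e1, zero_sub, abs_neg, abs_of_nonneg h0a]

theorem IsSegment.dist_abs {s : Set T} {x y : T} (h : M.IsSegment s x y) {p q : T} (hp : p ∈ s)
    (hq : q ∈ s) : M.d p q = |M.d x p - M.d x q| := by
  obtain ⟨γ, h0, h1, h2, h3⟩ := h
  rw [← h3] at hp hq
  obtain ⟨a, ha, rfl⟩ := hp
  obtain ⟨b, hb, rfl⟩ := hq
  have e1 := h2 0 ⟨le_rfl, M.nonneg x y⟩ a ha
  have e2 := h2 0 ⟨le_rfl, M.nonneg x y⟩ b hb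
  rw [h0, zero_sub, abs_neg, abs_of_nonneg ha.1] at e1
  rw [h0, zero_sub, abs_neg, abs_of_nonneg hb.1] at e2
  rw [e1, e2, h2 a ha b hb]

theorem IsSegment.inj {s : Set T} {x y : T} (h : M.IsSegment s x y) {p q : T} (hp : p ∈ s)
    (hq : q ∈ s) (hpq : M.d x p = M.d x q) : p = q := by
  rw [← M.eq_zero_iff, h.dist_abs hp hq, hpq, sub_self, abs_zero]

theorem IsSegment.left {s : Set T} {x y : T} (h : M.IsSegment s x y) : x ∈ s := by
  obtain ⟨γ, h0, h1, h2, h3⟩ := h
  rw [← h3]
  exact ⟨0, ⟨le_rfl, M.nonneg x y⟩, h0⟩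

theorem IsSegment.right {s : Set T} {x y : T} (h : M.IsSegment s x y) : y ∈ s := h.symm.left

/-- The part of a segment beyond one of its points is a segment. -/
theorem IsSegment.tail {s : Set T} {x y : T} (h : M.IsSegment s x y) {w : T} (hw : w ∈ s) :
    M.IsSegment {p ∈ s | M.d x w ≤ M.d x p} w y := by
  have hd := h.dist hw
  have hw0 := M.nonneg x w
  obtain ⟨p0, hp0, hp1⟩ := h.exists_mem le_rfl (M.nonneg x y)
  obtain ⟨γ, h0, h1, h2, h3⟩ := h
  have hmem : ∀ a ∈ Icc 0 (M.d x y), M.d x (γ a) = a := by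
    intro a ha
    have e1 := h2 0 ⟨le_rfl, M.nonneg x y⟩ a ha
    rwa [h0, zero_sub, abs_neg, abs_of_nonneg ha.1] at e1
  rw [← h3] at hw
  obtain ⟨c, hc, rfl⟩ := hw
  rw [hmem c hc] at hd hw0 ⊢
  refine ⟨fun a => γ (c + a), by simp, ?_, ?_, ?_⟩
  · show γ _ = y
    rw [hd, h1]
  · intro a ha b hb
    rw [h2 _ ⟨by grind, by grind⟩ _ ⟨by grind, by grind⟩]
    congr 1
    abel
  · ext p
    constructor
    · rintro ⟨a, ha, rfl⟩
      have : c + a ∈ Icc 0 (M.d x y) := ⟨by grind, by grind⟩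
      refine ⟨h3 ▸ ⟨c + a, this, rfl⟩, ?_⟩
      show c ≤ M.d x (γ (c + a))
      rw [hmem _ this]
      grind
    · rintro ⟨hp, hcp⟩
      rw [← h3] at hp
      obtain ⟨a, ha, rfl⟩ := hp
      rw [hmem a ha] at hcp
      exact ⟨a - c, ⟨by grind, by grind⟩, by show γ _ = γ _; congr 1; abel⟩

/-- Two segments with a common end point `x` meet in a segment with end point `x`. -/
theorem IsTree.inter' (hM : M.IsTree) {x y z : T} {s t : Set T} (hs : M.IsSegment s x y)
    (ht : M.IsSegment t x z) : ∃ w, M.IsSegment (s ∩ t) x w := by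
  obtain ⟨u, v, huv⟩ := hM.inter x y z s t hs ht
  have hx : x ∈ s ∩ t := ⟨hs.left, ht.left⟩
  have h1 := huv.dist hx
  have h2 := hs.dist_abs huv.left.1 huv.right.1
  rw [M.symm x u] at h2
  have a0 := M.nonneg u x
  have b0 := M.nonneg x v
  have : M.d u x = 0 ∨ M.d x v = 0 := by
    rcases le_total (M.d u x) (M.d x v) with h | h
    · left
      rw [abs_of_nonpos (by grind)] at h2
      grind
    · right
      rw [abs_of_nonneg (by grind)] at h2
      grind
  rcases this with h | h
  · rw [M.eq_zero_iff] at h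
    subst h
    exact ⟨v, huv⟩
  · rw [M.eq_zero_iff] at h
    subst h
    exact ⟨u, huv.symm⟩

/-- If two segments meet only in the common end point `x`, then `x` is between the two other
end points. -/
theorem IsTree.union' (hM : M.IsTree) {x y z : T} {s t : Set T} (hs : M.IsSegment s x y)
    (ht : M.IsSegment t x z) (hst : s ∩ t = {x}) : M.d y z = M.d x y + M.d x z := by
  wlog hyz : M.d x y ≤ M.d x z generalizing y z s t
  · have := this ht hs (by rw [inter_comm]; exact hst) (le_of_not_ge hyz)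
    rw [M.symm y z, this, add_comm]
  obtain ⟨u, v, huv⟩ := hM.union x y z s t hs ht hst
  have hx : x ∈ s ∪ t := Or.inl hs.left
  have hy : y ∈ s ∪ t := Or.inl hs.right
  have hz : z ∈ s ∪ t := Or.inr ht.right
  -- the point of `t` at distance `d x y` from `x`
  obtain ⟨p, hp, hxp⟩ := ht.exists_mem (M.nonneg x y) hyz
  have hp' : p ∈ s ∪ t := Or.inr hp
  have hpz := ht.dist hp
  have e1 := huv.dist_abs hx hy
  have e2 := huv.dist_abs hx hz
  have e3 := huv.dist_abs hx hp'
  have e4 := huv.dist_abs hy hz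
  have e5 := huv.dist_abs hp' hz
  have n1 := M.nonneg x y
  have n2 := M.nonneg x z
  have n3 := M.nonneg p z
  -- coordinates
  set cx := M.d u x
  set cy := M.d u y
  set cz := M.d u z
  set cp := M.d u p
  rcases eq_or_ne (M.d x y) 0 with h0 | h0
  · have : x = y := (M.eq_zero_iff x y).1 h0
    subst this
    rw [M.self, zero_add]
  have hyp : y ≠ p := by
    rintro rfl
    have : y ∈ s ∩ t := ⟨hs.right, hp⟩
    rw [hst, mem_singleton_iff] at this
    exact h0 (by rw [this, M.self])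
  have hcyp : cy ≠ cp := fun h => hyp (huv.inj hy hp' h)
  have f1 : cx - cy = M.d x y ∨ cy - cx = M.d x y := by
    rcases abs_choice (cx - cy) with h | h
    · left; rw [e1, h]
    · right; rw [e1, h]; abel
  have f2 : cx - cz = M.d x z ∨ cz - cx = M.d x z := by
    rcases abs_choice (cx - cz) with h | h
    · left; rw [e2, h]
    · right; rw [e2, h]; abel
  have f3 : cx - cp = M.d x p ∨ cp - cx = M.d x p := by
    rcases abs_choice (cx - cp) with h | h
    · left; rw [e3, h]
    · right; rw [e3, h]; abel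
  have f4 : cp - cz = M.d p z ∨ cz - cp = M.d p z := by
    rcases abs_choice (cp - cz) with h | h
    · left; rw [e5, h]
    · right; rw [e5, h]; abel
  have f5 : 0 < M.d x y := lt_of_le_of_ne n1 (Ne.symm h0)
  rcases f1 with f1 | f1 <;> rcases f2 with f2 | f2 <;> rcases f3 with f3 | f3 <;>
    rcases f4 with f4 | f4 <;> first
      | (exfalso; exact hcyp (by grind))
      | (exfalso; grind)
      | (rw [e4, abs_of_nonneg (by grind)]; grind)
      | (rw [e4, abs_of_nonpos (by grind)]; grind)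

/-- Existence of medians. -/
theorem IsTree.median_mem (hM : M.IsTree) {x y z : T} {s t : Set T} (hs : M.IsSegment s x y)
    (ht : M.IsSegment t x z) : ∃ w ∈ s ∩ t, M.d y w + M.d w z = M.d y z := by
  obtain ⟨w, hw⟩ := hM.inter' hs ht
  have hws : w ∈ s := hw.right.1
  have hwt : w ∈ t := hw.right.2
  refine ⟨w, ⟨hws, hwt⟩, ?_⟩
  have h1 := hs.tail hws
  have h2 := ht.tail hwt
  have h3 : {p ∈ s | M.d x w ≤ M.d x p} ∩ {p ∈ t | M.d x w ≤ M.d x p} = {w} := by
    ext p
    constructor
    · rintro ⟨⟨h1, h2⟩, h3, h4⟩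
      have h5 := hw.dist ⟨h1, h3⟩
      have h6 := M.nonneg p w
      have : M.d x p = M.d x w := by grind
      exact hs.inj h1 hws this
    · rintro rfl
      exact ⟨⟨hws, le_rfl⟩, hwt, le_rfl⟩
  rw [hM.union' h1 h2 h3, M.symm y w]

/-- Existence of medians. -/
theorem IsTree.median (hM : M.IsTree) (x y z : T) : ∃ w, M.d x w + M.d w y = M.d x y ∧
    M.d x w + M.d w z = M.d x z ∧ M.d y w + M.d w z = M.d y z := by
  obtain ⟨s, hs⟩ := hM.joined x y
  obtain ⟨t, ht⟩ := hM.joined x z
  obtain ⟨w, hw, h⟩ := hM.median_mem hs ht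
  exact ⟨w, hs.dist hw.1, ht.dist hw.2, h⟩

/-- A point metrically between the end points of a segment lies on it. -/
theorem IsTree.mem_of_between (hM : M.IsTree) {x z w : T} {s : Set T} (hs : M.IsSegment s x z)
    (h : M.d x w + M.d w z = M.d x z) : w ∈ s := by
  obtain ⟨t, ht⟩ := hM.joined x w
  obtain ⟨m, hm, e⟩ := hM.median_mem ht hs
  have e1 := ht.dist hm.1
  have e2 := hs.dist hm.2
  rw [M.symm m w] at e1
  have e3 : M.d w m = 0 := by
    have := M.nonneg w m
    grind
  rw [(M.eq_zero_iff w m).1 e3]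
  exact hm.2

/-- Two segments with the same end points are equal. -/
theorem IsTree.segment_unique (hM : M.IsTree) {x z : T} {s t : Set T} (hs : M.IsSegment s x z)
    (ht : M.IsSegment t x z) : s = t :=
  Subset.antisymm (fun _ hp => hM.mem_of_between ht (hs.dist hp))
    (fun _ hp => hM.mem_of_between hs (ht.dist hp))

/-- The four point inequality. -/
theorem IsTree.fourPoint (hM : M.IsTree) (p x y z : T) :
    M.d x y + M.d p z ≤ max (M.d x z + M.d p y) (M.d y z + M.d p x) := by
  obtain ⟨s, hs⟩ := hM.joined p z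
  obtain ⟨sx, hsx⟩ := hM.joined p x
  obtain ⟨sy, hsy⟩ := hM.joined p y
  obtain ⟨w1, hw1, a3⟩ := hM.median_mem hsx hs
  obtain ⟨w2, hw2, b3⟩ := hM.median_mem hsy hs
  have a1 := hsx.dist hw1.1
  have a2 := hs.dist hw1.2
  have b1 := hsy.dist hw2.1
  have b2 := hs.dist hw2.2
  rw [M.symm x w1] at a3
  rw [M.symm y w2] at b3
  have n1 := M.nonneg p w1
  have n2 := M.nonneg p w2
  have n3 := M.nonneg w1 z
  rcases le_total (M.d p w1) (M.d p w2) with h | h
  · have e := hs.dist_abs hw1.2 hw2.2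
    rw [abs_of_nonpos (by grind)] at e
    have d1 := M.triangle x w1 y
    have d2 := M.triangle w1 w2 y
    rw [M.symm x w1] at d1
    have : M.d x y + M.d p z ≤ M.d x z + M.d p y := by grind
    exact this.trans (le_max_left _ _)
  · have e := hs.dist_abs hw1.2 hw2.2
    rw [abs_of_nonneg (by grind)] at e
    have d1 := M.triangle x w1 w2
    have d2 := M.triangle x w2 y
    rw [M.symm x w1] at d1
    have : M.d x y + M.d p z ≤ M.d y z + M.d p x := by grind
    exact this.trans (le_max_right _ _)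

end LambdaMetric

end Pool.Agent.Q104.LT
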